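import Pool.Agent.Helper76.TH.StC

/-!
# Project TH, module DIMOH: dimension of subOH (odd exponents)

Adapted from the module DimO of project W5.
-/

set_option autoImplicit false

namespace Pool.Agent.Helper75.TH

open Pool.Agent.Helper76.TH Pool.Agent.Helper93.TLH Pool.Agent.Helper14.W5

section lin

variable {W W' : Type} [AddCommGroup W] [Module ℂ W] [FiniteDimensional ℂ W] [AddCommGroup W']
  [Module ℂ W']

private theorem rn (f : W →ₗ[ℂ] W') (V : Submodule ℂ W) :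
    Module.finrank ℂ (V.map f) + Module.finrank ℂ ↥(V ⊓ LinearMap.ker f) =
      Module.finrank ℂ V := by
  have h := LinearMap.finrank_range_add_finrank_ker (f.domRestrict V)
  rw [LinearMap.range_domRestrict, LinearMap.ker_domRestrict] at h
  have h2 : Module.finrank ℂ ↥((LinearMap.ker f).comap V.subtype) =
      Module.finrank ℂ ↥(V ⊓ LinearMap.ker f) := by
    rw [← Submodule.map_comap_subtype, Submodule.finrank_map_subtype_eq]
  rw [h2] at h
  exact h

private theorem fr_prod (V V' : Submodule ℂ W) :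
    Module.finrank ℂ ↥(V.prod V') = Module.finrank ℂ V + Module.finrank ℂ V' := by
  have h1 : V.prod V' = LinearMap.range (V.subtype.prodMap V'.subtype) := by
    rw [LinearMap.range_prodMap, Submodule.range_subtype, Submodule.range_subtype]
  rw [h1, LinearMap.finrank_range_of_inj, Module.finrank_prod]
  rintro ⟨a, b⟩ ⟨a', b'⟩ h
  simp only [LinearMap.prodMap_apply, Submodule.subtype_apply, Prod.mk.injEq,
    SetLike.coe_eq_coe] at h
  rw [h.1, h.2]

end lin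

/-- `4` times the projection onto `inv5 r r' e e'` -/
private def P {m : ℕ} (r r' : Pt m → Pt m) (e e' : ℂ) : (Pt m → ℂ) →ₗ[ℂ] (Pt m → ℂ) where
  toFun F p := F p + e * F (r p) + e' * F (r' p) + e * e' * F (r (r' p))
  map_add' F F' := by funext p; simp only [Pi.add_apply]; ring
  map_smul' c F := by funext p; simp only [Pi.smul_apply, smul_eq_mul, RingHom.id_apply]; ring

private theorem P_apply {m : ℕ} (r r' : Pt m → Pt m) (e e' : ℂ) (F : Pt m → ℂ) (p : Pt m) :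
    P r r' e e' F p = F p + e * F (r p) + e' * F (r' p) + e * e' * F (r (r' p)) := rfl

private theorem five_pow {m : ℕ} (hm : 1 ≤ m) : (5 : ZMod (5 ^ m)) * 5 ^ (m - 1) = 0 := by
  have h3 := ZMod.natCast_self (5 ^ m)
  push_cast at h3
  rw [← pow_succ', Nat.sub_add_cancel hm]
  exact h3

/-- a sum over the multiples of a unit modulo five of a function with period five -/
private theorem sum_unit (g : ℤ → ℂ) (hg : ∀ i, g (i + 5) = g i) (s : ℤ) (hs : ¬ (5 : ℤ) ∣ s) :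
    ∑ i ∈ Finset.range 5, g (s * i) = ∑ i ∈ Finset.range 5, g i := by
  have hg2 : ∀ (q : ℤ) (i : ℤ), g (i + 5 * q) = g i := by
    intro q
    induction q using Int.induction_on with
    | zero => intro i; simp
    | succ n ih =>
      intro i
      rw [show i + 5 * ((n : ℤ) + 1) = (i + 5 * n) + 5 by ring, hg, ih]
    | pred n ih =>
      intro i
      rw [← hg (i + 5 * (-(n : ℤ) - 1)), show i + 5 * (-(n : ℤ) - 1) + 5 = i + 5 * (-(n : ℤ)) by ring,
        ih]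
  obtain ⟨q, r, hr, hsr⟩ : ∃ q r : ℤ, (r = 1 ∨ r = 2 ∨ r = 3 ∨ r = 4) ∧ s = r + 5 * q :=
    ⟨s / 5, s % 5, by omega, by omega⟩
  have h1 : ∀ i : ℕ, g (s * i) = g (r * i) := by
    intro i
    rw [hsr, show (r + 5 * q) * (i : ℤ) = r * i + 5 * (q * i) by ring, hg2]
  simp only [h1]
  simp only [Finset.sum_range_succ, Finset.sum_range_zero]
  have q6 : g 6 = g 1 := by rw [show (6 : ℤ) = 1 + 5 * 1 by norm_num, hg2]
  have q8 : g 8 = g 3 := by rw [show (8 : ℤ) = 3 + 5 * 1 by norm_num, hg2]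
  have q9 : g 9 = g 4 := by rw [show (9 : ℤ) = 4 + 5 * 1 by norm_num, hg2]
  have q12 : g 12 = g 2 := by rw [show (12 : ℤ) = 2 + 5 * 2 by norm_num, hg2]
  have q16 : g 16 = g 1 := by rw [show (16 : ℤ) = 1 + 5 * 3 by norm_num, hg2]
  rcases hr with rfl | rfl | rfl | rfl
  · norm_num
  · norm_num
    rw [q6, q8]
    ring
  · norm_num
    rw [q6, q9, q12]
    ring
  · norm_num
    rw [q8, q12, q16]
    ring

private theorem anti_s {m : ℕ} (hm : 1 ≤ m) {F : Pt m → ℂ} (hF : F ∈ anti5 m) (s : ℤ)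
    (hs : ¬ (5 : ℤ) ∣ s) (x y : ZMod (5 ^ m)) :
    ∑ i ∈ Finset.range 5, F (x + s * (i * 5 ^ (m - 1)), y) = 0 ∧
      ∑ i ∈ Finset.range 5, F (x, y + s * (i * 5 ^ (m - 1))) = 0 := by
  have h := hF (x, y)
  have h5 := five_pow hm
  constructor
  · have k := sum_unit (fun i : ℤ => F (x + (i : ZMod (5 ^ m)) * 5 ^ (m - 1), y)) (by
      intro i
      have e : x + ((i + 5 : ℤ) : ZMod (5 ^ m)) * 5 ^ (m - 1) =
          x + (i : ZMod (5 ^ m)) * 5 ^ (m - 1) := by
        push_cast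
        linear_combination h5
      simp only [e]) s hs
    rw [← h.1]
    refine Eq.trans (Finset.sum_congr rfl fun i _ => ?_) (k.trans (Finset.sum_congr rfl fun i _ => ?_))
    · have e : x + (s : ZMod (5 ^ m)) * ((i : ZMod (5 ^ m)) * 5 ^ (m - 1)) =
          x + ((s * i : ℤ) : ZMod (5 ^ m)) * 5 ^ (m - 1) := by
        push_cast
        ring
      simp only [e]
    · simp only [Int.cast_natCast]
  · have k := sum_unit (fun i : ℤ => F (x, y + (i : ZMod (5 ^ m)) * 5 ^ (m - 1))) (by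
      intro i
      have e : y + ((i + 5 : ℤ) : ZMod (5 ^ m)) * 5 ^ (m - 1) =
          y + (i : ZMod (5 ^ m)) * 5 ^ (m - 1) := by
        push_cast
        linear_combination h5
      simp only [e]) s hs
    rw [← h.2]
    refine Eq.trans (Finset.sum_congr rfl fun i _ => ?_) (k.trans (Finset.sum_congr rfl fun i _ => ?_))
    · have e : y + (s : ZMod (5 ^ m)) * ((i : ZMod (5 ^ m)) * 5 ^ (m - 1)) =
          y + ((s * i : ℤ) : ZMod (5 ^ m)) * 5 ^ (m - 1) := by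
        push_cast
        ring
      simp only [e]
    · simp only [Int.cast_natCast]

private theorem dv_step {m : ℕ} (hm : 1 ≤ m) {s : ℤ} {φ : ZMod (5 ^ m) → ZMod (5 ^ m)}
    (h : Dv s φ) (x : ZMod (5 ^ m)) (i : ℕ) :
    φ (x + i * 5 ^ (m - 1)) = φ x + s * (i * 5 ^ (m - 1)) := by
  have h1 := h (m - 1) (x + i * 5 ^ (m - 1)) x ⟨i, by ring⟩
  have h2 : (5 : ZMod (5 ^ m)) ^ (m - 1 + 1) = 0 := by
    rw [Nat.sub_add_cancel hm]
    have h3 := ZMod.natCast_self (5 ^ m)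
    push_cast at h3
    exact h3
  rw [h2, zero_dvd_iff] at h1
  linear_combination h1

private theorem anti_comp {m n : ℕ} (hm : 1 ≤ m) {r : Pt m → Pt m} (hr : TyH n r) {F : Pt m → ℂ}
    (hF : F ∈ anti5 m) : (fun p => F (r p)) ∈ anti5 m := by
  rcases hr with ⟨_, s, s', φ, φ', hs, hs', _, _, hφ, hφ', hr⟩ | ⟨_, s, s', ψ, ψ', hs, hs', hψ, hψ', hr⟩
  · intro p
    simp only [hr, dv_step hm hφ, dv_step hm hφ']
    exact ⟨(anti_s hm hF s hs (φ p.1) (φ' p.2)).1, (anti_s hm hF s' hs' (φ p.1) (φ' p.2)).2⟩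
  · intro p
    simp only [hr, dv_step hm hψ, dv_step hm hψ']
    exact ⟨(anti_s hm hF s' hs' (ψ p.2) (ψ' p.1)).2, (anti_s hm hF s hs (ψ p.2) (ψ' p.1)).1⟩

private theorem P_mem {m n n' : ℕ} (hm : 1 ≤ m) {r r' : Pt m → Pt m} (hk : Kl r r') (hr : TyH n r)
    (hr' : TyH n' r') {e e' : ℂ} (he : e * e = 1) (he' : e' * e' = 1) {F : Pt m → ℂ}
    (hF : F ∈ anti5 m) : P r r' e e' F ∈ inv5 r r' e e' := by
  obtain ⟨k1, k2, k3⟩ := hk
  have h1 : (fun p => F (r p)) ∈ anti5 m := anti_comp hm hr hF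
  have h2 : (fun p => F (r' p)) ∈ anti5 m := anti_comp hm hr' hF
  have h3 : (fun p => F (r (r' p))) ∈ anti5 m := anti_comp hm hr' h1
  refine ⟨?_, fun p => ⟨?_, ?_⟩⟩
  · have h4 : P r r' e e' F = F + e • (fun p => F (r p)) + e' • (fun p => F (r' p)) +
        (e * e') • (fun p => F (r (r' p))) := by
      funext p
      simp only [P_apply, Pi.add_apply, Pi.smul_apply, smul_eq_mul]
    rw [h4]
    exact Submodule.add_mem _ (Submodule.add_mem _ (Submodule.add_mem _ hF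
      (Submodule.smul_mem _ _ h1)) (Submodule.smul_mem _ _ h2)) (Submodule.smul_mem _ _ h3)
  · simp only [P_apply]
    rw [k1 p, ← k3 p, k1 (r' p)]
    linear_combination (-(F (r p)) - e' * F (r (r' p))) * he
  · simp only [P_apply]
    rw [k2 p]
    linear_combination (-(F (r' p)) - e * F (r (r' p))) * he'

/-- The sum over the powers of the rotation. -/
private def N {X : Type} (r r' : X → X) (F : X → ℂ) (p : X) : ℂ :=
  F p + F (r (r' p)) + F (r (r' (r (r' p)))) + F (r (r' (r (r' (r (r' p))))))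

section dih

variable {X : Type} {r r' : X → X} (e1 : ∀ p, r (r p) = p) (e2 : ∀ p, r' (r' p) = p)
  (e3 : ∀ p, r (r' (r (r' p))) = r' (r (r' (r p))))

include e1 e2 e3

private theorem R3 (p : X) : r (r' (r (r' (r (r' p))))) = r' (r p) := by
  rw [e3 (r (r' p)), e1 (r' p), e2 p]

private theorem R3' (p : X) : r' (r (r' (r (r' (r p))))) = r (r' p) := by
  rw [← e3 (r' (r p)), e2 (r p), e1 p]

private theorem N_r {F : X → ℂ} (h : ∀ p, F (r p) = F p) (p : X) : N r r' F (r p) = N r r' F p := by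
  unfold N
  have a1 : F (r (r' (r p))) = F (r' (r p)) := h _
  have a2 : F (r (r' (r (r' (r p))))) = F (r (r' (r (r' p)))) := by
    rw [h, ← e3 p]
  have a3 : F (r (r' (r (r' (r (r' (r p))))))) = F (r (r' p)) := by
    rw [h, R3' e1 e2 e3 p]
  rw [R3 e1 e2 e3 p, h p, a1, a2, a3]
  ring

private theorem N_r' {F : X → ℂ} (h : ∀ p, F (r p) = F p) (p : X) :
    N r r' F (r' p) = N r r' F p := by
  unfold N
  have a0 : F (r' p) = F (r (r' p)) := (h _).symm
  have a2 : F (r (r' (r (r' (r' p))))) = F (r' (r p)) := by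
    rw [e2 p, h]
  have a3 : F (r (r' (r (r' (r (r' (r' p))))))) = F (r (r' (r (r' p)))) := by
    rw [e2 p, e3 (r p), e1 p, ← h (r' (r (r' p)))]
  rw [R3 e1 e2 e3 p, a0, a2, a3, e2 p, h p]
  ring

private theorem N_s {F : X → ℂ} (h : ∀ p, F (r' p) = F p) (p : X) :
    N r r' F (r p) = N r r' F p := by
  unfold N
  have a0 : F (r p) = F (r' (r p)) := (h _).symm
  have a1 : F (r (r' (r p))) = F (r (r' (r (r' p)))) := by
    rw [e3 p, h]
  have a2 : F (r (r' (r (r' (r p))))) = F (r (r' p)) := by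
    rw [e3 (r p), e1 p, h]
  have a3 : F (r (r' (r (r' (r (r' (r p))))))) = F p := by
    rw [R3 e1 e2 e3 (r p), e1 p, h]
  rw [R3 e1 e2 e3 p, a1, a2, a3, a0]
  ring

private theorem N_s' {F : X → ℂ} (h : ∀ p, F (r' p) = F p) (p : X) :
    N r r' F (r' p) = N r r' F p := by
  unfold N
  have a1 : F (r (r' (r' p))) = F (r' (r p)) := by
    rw [e2 p, h]
  have a2 : F (r (r' (r (r' (r' p))))) = F (r (r' (r (r' p)))) := by
    rw [e2 p, e3 p, h]
  have a3 : F (r (r' (r (r' (r (r' (r' p))))))) = F (r (r' p)) := by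
    rw [e2 p, e3 (r p), e1 p, h]
  rw [R3 e1 e2 e3 p, a1, a2, a3, h p]
  ring

/-- the sum over the dihedral group -/
private theorem N_sum {f l φ : X → ℂ} (h : ∀ p, f p + l p = φ p) (p1 : ∀ p, φ (r p) = φ p)
    (p2 : ∀ p, φ (r' p) = φ p) (p : X) :
    N r r' (fun q => f q + f (r q)) p + N r r' (fun q => l q + l (r' q)) p = 8 * φ p := by
  unfold N
  dsimp only
  have q1 : r' (r (r' (r (r' (r (r' p)))))) = r p := by
    rw [← e3 (r' (r (r' p))), e2 (r (r' p)), e1 (r' p), e2 p]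
  rw [e1 (r' p), e1 (r' (r (r' p))), e1 (r' (r (r' (r (r' p))))), q1]
  have s0 := h p
  have s1 := h (r (r' p))
  have s2 := h (r (r' (r (r' p))))
  have s3 := h (r (r' (r (r' (r (r' p))))))
  have t0 := h (r p)
  have t1 := h (r' p)
  have t2 := h (r' (r (r' p)))
  have t3 := h (r' (r (r' (r (r' p)))))
  rw [p1, p2] at s1
  rw [p1, p2, p1, p2] at s2
  rw [p1, p2, p1, p2, p1, p2] at s3
  rw [p1] at t0
  rw [p2] at t1
  rw [p2, p1, p2] at t2
  rw [p2, p1, p2, p1, p2] at t3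
  linear_combination s0 + s1 + s2 + s3 + t0 + t1 + t2 + t3

end dih

/-- The map `(f, l) ↦ N (f - l)`. -/
private def L (m : ℕ) : ((Pt m → ℂ) × (Pt m → ℂ)) →ₗ[ℂ] (Pt m → ℂ) where
  toFun F p := (F.1 p - F.2 p) + (F.1 (swH (cOH p)) - F.2 (swH (cOH p))) +
      (F.1 (swH (cOH (swH (cOH p)))) - F.2 (swH (cOH (swH (cOH p))))) +
      (F.1 (swH (cOH (swH (cOH (swH (cOH p)))))) - F.2 (swH (cOH (swH (cOH (swH (cOH p)))))))
  map_add' F F' := by
    funext p; simp only [Prod.fst_add, Prod.snd_add, Pi.add_apply]; ring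
  map_smul' c F := by
    funext p
    simp only [Prod.smul_fst, Prod.smul_snd, Pi.smul_apply, smul_eq_mul, RingHom.id_apply]; ring

private theorem L_apply {m : ℕ} (F : (Pt m → ℂ) × (Pt m → ℂ)) (p : Pt m) :
    L m F p = N swH cOH F.1 p - N swH cOH F.2 p := by
  show (F.1 p - F.2 p) + (F.1 (swH (cOH p)) - F.2 (swH (cOH p))) +
      (F.1 (swH (cOH (swH (cOH p)))) - F.2 (swH (cOH (swH (cOH p))))) +
      (F.1 (swH (cOH (swH (cOH (swH (cOH p)))))) - F.2 (swH (cOH (swH (cOH (swH (cOH p))))))) = _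
  unfold N
  ring

private theorem dim_one {m n n' n'' : ℕ} (hk : HDimK) (hm : 1 ≤ m) {r r' : Pt m → Pt m}
    (hkl : Kl r r') (hr : TyH n r) (hr' : TyH n' r') (hr'' : TyH n'' (fun p => r (r' p)))
    (hn : n + n' + n'' = 2) :
    Module.finrank ℂ (inv5 r r' (1 : ℂ) (1 : ℂ)) = 4 * 25 ^ (m - 1) + 2 * 5 ^ (m - 1) := by
  have h2 := (hk m hm).1 r r' n n' n'' 1 1 hkl hr hr' hr'' (Or.inl rfl) (Or.inl rfl)
  rw [Int.cast_one] at h2
  have h3 : ((n : ℤ) + n' + n'') = 2 := by exact_mod_cast hn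
  have h4 : (1 * (n : ℤ) + 1 * n' + 1 * 1 * n'') = 2 := by linarith
  rw [h4] at h2
  have h5 : (Module.finrank ℂ (inv5 r r' (1 : ℂ) (1 : ℂ)) : ℤ) =
      4 * 25 ^ (m - 1) + 2 * 5 ^ (m - 1) := by linarith
  exact_mod_cast h5

theorem hDimOH : StHDimO := by
  intro ht hk hs m hm
  obtain ⟨⟨a1, a2, a3, a4⟩, ⟨b1, b2, b3, b4⟩, _, _, _, c, _⟩ := ht m
  have d1 : Module.finrank ℂ (inv5 (ng : Pt m → Pt m) swH (1 : ℂ) (1 : ℂ)) =
      4 * 25 ^ (m - 1) + 2 * 5 ^ (m - 1) := dim_one hk hm a1 a2 a3 a4 (by norm_num)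
  have d2 : Module.finrank ℂ (inv5 (dR 0 : Pt m → Pt m) cOH (1 : ℂ) (1 : ℂ)) =
      4 * 25 ^ (m - 1) + 2 * 5 ^ (m - 1) := dim_one hk hm b1 b2 b3 b4 (by norm_num)
  have d3 : Module.finrank ℂ (inv5 (swH : Pt m → Pt m) cOH (1 : ℂ) (1 : ℂ)) =
      2 * 25 ^ (m - 1) + 2 * 5 ^ (m - 1) := (hk m hm).2.2 swH cOH c
  obtain ⟨e1, e2, e3, _, _, _, _, tR, _, _⟩ := c
  have antiN : ∀ F : Pt m → ℂ, F ∈ anti5 m → N swH cOH F ∈ anti5 m := by
    intro F hF
    have h1 : (fun p => F (swH (cOH p))) ∈ anti5 m := anti_comp hm tR hF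
    have h2 : (fun p => F (swH (cOH (swH (cOH p))))) ∈ anti5 m := anti_comp hm tR h1
    have h3 : (fun p => F (swH (cOH (swH (cOH (swH (cOH p))))))) ∈ anti5 m := anti_comp hm tR h2
    have h4 : N swH cOH F = F + (fun p => F (swH (cOH p))) + (fun p => F (swH (cOH (swH (cOH p))))) +
        (fun p => F (swH (cOH (swH (cOH (swH (cOH p))))))) := by
      funext p
      simp only [N, Pi.add_apply]
    rw [h4]
    exact Submodule.add_mem _ (Submodule.add_mem _ (Submodule.add_mem _ hF h1) h2) h3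
  have hmap : ((inv5 (ng : Pt m → Pt m) swH (1 : ℂ) (1 : ℂ)).prod
      (inv5 (dR 0 : Pt m → Pt m) cOH (1 : ℂ) (1 : ℂ))).map (L m) =
      inv5 (swH : Pt m → Pt m) cOH (1 : ℂ) (1 : ℂ) := by
    apply le_antisymm
    · rintro _ ⟨⟨f, l⟩, ⟨⟨hf, hf'⟩, ⟨hl, hl'⟩⟩, rfl⟩
      dsimp only at hf hf' hl hl'
      have f1 : ∀ p, f (swH p) = f p := fun p => by rw [(hf' p).2, one_mul]
      have l1 : ∀ p, l (cOH p) = l p := fun p => by rw [(hl' p).2, one_mul]
      refine ⟨?_, fun p => ⟨?_, ?_⟩⟩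
      · have h4 : L m (f, l) = N swH cOH f - N swH cOH l := by
          funext p
          rw [L_apply, Pi.sub_apply]
        rw [h4]
        exact Submodule.sub_mem _ (antiN f hf) (antiN l hl)
      · rw [L_apply, L_apply, one_mul, N_r e1 e2 e3 f1 p, N_s e1 e2 e3 l1 p]
      · rw [L_apply, L_apply, one_mul, N_r' e1 e2 e3 f1 p, N_s' e1 e2 e3 l1 p]
    · intro φ hφ
      obtain ⟨hφ0, hφ1⟩ := hφ
      obtain ⟨f, hf, l, hl, hfn, hld, hfl⟩ := hs 0 m hm φ hφ0
      have p1 : ∀ p, φ (swH p) = φ p := fun p => by rw [(hφ1 p).1, one_mul]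
      have p2 : ∀ p, φ (cOH p) = φ p := fun p => by rw [(hφ1 p).2, one_mul]
      have m1 : P (ng : Pt m → Pt m) swH (1 : ℂ) (1 : ℂ) f ∈
          inv5 (ng : Pt m → Pt m) swH (1 : ℂ) (1 : ℂ) := P_mem hm a1 a2 a3 (by norm_num) (by norm_num) hf
      have m2 : P (dR 0 : Pt m → Pt m) cOH (1 : ℂ) (1 : ℂ) l ∈
          inv5 (dR 0 : Pt m → Pt m) cOH (1 : ℂ) (1 : ℂ) := P_mem hm b1 b2 b3 (by norm_num) (by norm_num) hl
      refine ⟨((16 : ℂ)⁻¹ • P (ng : Pt m → Pt m) swH (1 : ℂ) (1 : ℂ) f,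
        (-(16 : ℂ)⁻¹) • P (dR 0 : Pt m → Pt m) cOH (1 : ℂ) (1 : ℂ) l),
        ⟨Submodule.smul_mem _ _ m1, Submodule.smul_mem _ _ m2⟩, ?_⟩
      have g1 : (16 : ℂ)⁻¹ • P (ng : Pt m → Pt m) swH (1 : ℂ) (1 : ℂ) f =
          fun q => (8 : ℂ)⁻¹ * (f q + f (swH q)) := by
        funext q
        simp only [Pi.smul_apply, smul_eq_mul, P_apply, hfn]
        ring
      have g2 : (-(16 : ℂ)⁻¹) • P (dR 0 : Pt m → Pt m) cOH (1 : ℂ) (1 : ℂ) l =
          fun q => (-(8 : ℂ)⁻¹) * (l q + l (cOH q)) := by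
        funext q
        simp only [Pi.smul_apply, smul_eq_mul, P_apply, hld]
        ring
      funext p
      rw [L_apply]
      dsimp only
      rw [g1, g2]
      have k := N_sum e1 e2 e3 hfl p1 p2 p
      unfold N at k ⊢
      dsimp only at k ⊢
      linear_combination (8 : ℂ)⁻¹ * k
  have hker : (inv5 (ng : Pt m → Pt m) swH (1 : ℂ) (1 : ℂ)).prod
      (inv5 (dR 0 : Pt m → Pt m) cOH (1 : ℂ) (1 : ℂ)) ⊓ LinearMap.ker (L m) = subOH m := by
    ext F
    constructor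
    · rintro ⟨⟨h1, h2⟩, h5⟩
      rw [SetLike.mem_coe, LinearMap.mem_ker] at h5
      exact ⟨h1, h2, fun p => congrFun h5 p⟩
    · rintro ⟨h1, h2, h⟩
      refine ⟨⟨h1, h2⟩, ?_⟩
      rw [SetLike.mem_coe, LinearMap.mem_ker]
      funext p
      exact h p
  have h6 := rn (L m) ((inv5 (ng : Pt m → Pt m) swH (1 : ℂ) (1 : ℂ)).prod
      (inv5 (dR 0 : Pt m → Pt m) cOH (1 : ℂ) (1 : ℂ)))
  rw [hmap, hker, fr_prod, d1, d2, d3] at h6
  omega

end Pool.Agent.Helper75.TH
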